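import Pool.Agent.Lib.helper19.CongColor

set_option autoImplicit false

namespace Pool.Agent.Results.MP_e721cf_gt.Yes

open FreeGroup Pool.Agent.Lib.helper19.HalfColor Pool.Agent.Lib.helper19.HalfSL
  Pool.Agent.Lib.helper19.CongColor
open scoped MatrixGroups UpperHalfPlane

/-- `f` is a piecewise isometry of `X`: there is a partition of `X` into finitely many pieces
(the fibres of `p`) on each of which `f` agrees with an isometry of the hyperbolic plane. -/
def PiecewiseIsometry (X : Set ℍ) (f : Equiv.Perm X) : Prop :=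
  ∃ (n : ℕ) (p : X → Fin n) (g : Fin n → (ℍ ≃ᵢ ℍ)), ∀ x : X, (f x : ℍ) = g (p x) x

def Pm {K : Type} [CommRing K] (s t u : K) : SL(2, K) :=
  ⟨!![1 + s * t, u + s + s * t * u; t, 1 + t * u], by rw [Matrix.det_fin_two_of]; ring⟩

lemma Pm_map {K L : Type} [CommRing K] [CommRing L] (f : K →+* L) (s t u : K) :
    Matrix.SpecialLinearGroup.map f (Pm s t u) = Pm (f s) (f t) (f u) := by
  ext i j
  fin_cases i <;> fin_cases j <;> simp [Pm]

lemma Pm_A {K : Type} [CommRing K] (t : K) : Pm t 2 (-t) = A t := by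
  ext i j
  fin_cases i <;> fin_cases j <;> simp [Pm, A] <;> ring

lemma Pm_cont : Continuous (fun v : Fin 3 → ℝ => Pm (v 0) (v 1) (v 2)) := by
  apply Continuous.subtype_mk
  apply continuous_matrix
  intro i j
  fin_cases i <;> fin_cases j <;> simp <;> fun_prop

lemma Pm_hit (c : ℍ) : ∃ v : Fin 3 → ℝ, Pm (v 0) (v 1) (v 2) • c = UpperHalfPlane.I := by
  obtain ⟨r, hr, hr2⟩ : ∃ r : ℝ, 0 < r ∧ c.im = r ^ 2 :=
    ⟨√c.im, Real.sqrt_pos.2 c.im_pos, (Real.sq_sqrt c.im_pos.le).symm⟩
  refine ⟨![-r, r⁻¹, -r - c.re], ?_⟩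
  ext1
  rw [UpperHalfPlane.coe_specialLinearGroup_apply]
  have hc : (c : ℂ) = c.re + r ^ 2 * Complex.I := by
    apply Complex.ext <;> simp [hr2, ← Complex.ofReal_pow]
  have hr' : (r : ℂ) ≠ 0 := by exact_mod_cast hr.ne'
  simp only [Pm, Algebra.algebraMap_self, RingHom.id_apply]
  simp
  generalize c.re = x at hc
  have hd : (↑r)⁻¹ * (c : ℂ) + (1 + (↑r)⁻¹ * (-↑r - ↑x)) = r * Complex.I := by
    rw [hc]; field_simp; ring
  rw [hd, div_eq_iff (mul_ne_zero hr' Complex.I_ne_zero), mul_inv_cancel₀ hr']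
  linear_combination - r * Complex.I_mul_I

lemma free_near {ι : Type} [Finite ι] [Nontrivial ι] (O : ι → Set (Fin 3 → ℝ))
    (hO : ∀ i, IsOpen (O i)) (hne : ∀ i, (O i).Nonempty) :
    ∃ v : ι → Fin 3 → ℝ, (∀ i, v i ∈ O i) ∧
      Function.Injective (FreeGroup.lift (fun i => Pm (v i 0) (v i 1) (v i 2))) := by
  obtain ⟨τ0, hτ0⟩ := exists_indep
  obtain ⟨e, he⟩ := exists_injective_nat (ι × Fin 3)
  obtain ⟨e', he'⟩ := exists_injective_nat ι
  let τ : ι × Fin 3 → ℝ := τ0 ∘ (fun k => some (e k : ℝ))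
  have hτ : AlgebraicIndependent ℚ τ := hτ0.comp _ (fun a b h => he (by simpa using h))
  have hd : ∀ i, ∃ r : Fin 3 → ℚ, (fun k => (r k : ℝ) + τ (i, k)) ∈ O i := by
    intro i
    have h1 : DenseRange (fun (r : Fin 3 → ℚ) (k : Fin 3) => (r k : ℝ)) :=
      DenseRange.piMap (fun _ => Rat.denseRange_cast)
    have h2 : IsOpen ((fun x : Fin 3 → ℝ => x + fun k => τ (i, k)) ⁻¹' O i) :=
      (hO i).preimage (by fun_prop)
    obtain ⟨y, hy⟩ := hne i
    obtain ⟨r, hr⟩ := h1.exists_mem_open h2 ⟨y - fun k => τ (i, k), by simpa using hy⟩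
    exact ⟨r, hr⟩
  choose r hr using hd
  refine ⟨fun i k => (r i k : ℝ) + τ (i, k), hr, ?_⟩
  let t : ι → ℝ := fun i => 3 * e' i
  have h1 := pingpong t (by
    intro i j hij
    have h0 : e' i ≠ e' j := he'.ne hij
    have : (1 : ℝ) ≤ |(e' i : ℝ) - e' j| := by
      have : (1 : ℤ) ≤ |(e' i : ℤ) - e' j| := Int.one_le_abs (by omega)
      exact_mod_cast this
    have e : t i - t j = 3 * ((e' i : ℝ) - e' j) := by simp only [t]; ring
    rw [e, abs_mul]; norm_num; linarith)
  let φ : MvPolynomial (ι × Fin 3) ℚ →+* ℝ := (MvPolynomial.aeval τ).toRingHom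
  let ψ : MvPolynomial (ι × Fin 3) ℚ →+* ℝ :=
    (MvPolynomial.aeval (fun k : ι × Fin 3 => ![t k.1, 2, -t k.1] k.2 - r k.1 k.2)).toRingHom
  let Y : ι → Fin 3 → MvPolynomial (ι × Fin 3) ℚ := fun i k =>
    MvPolynomial.C (r i k) + MvPolynomial.X (i, k)
  let ρ : FreeGroup ι →* SL(2, MvPolynomial (ι × Fin 3) ℚ) :=
    FreeGroup.lift (fun i => Pm (Y i 0) (Y i 1) (Y i 2))
  have e1 : FreeGroup.lift (fun i => Pm ((r i 0 : ℝ) + τ (i, 0)) ((r i 1 : ℝ) + τ (i, 1))
      ((r i 2 : ℝ) + τ (i, 2))) = (Matrix.SpecialLinearGroup.map φ).comp ρ := by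
    ext1 i; simp [ρ, Pm_map, φ, Y]
  have e2 : FreeGroup.lift (fun i => A (t i)) = (Matrix.SpecialLinearGroup.map ψ).comp ρ := by
    ext1 i; simp [ρ, Pm_map, ψ, Y, ← Pm_A]
  have hρ : Function.Injective ρ := by
    rw [e2] at h1
    exact Function.Injective.of_comp (f := Matrix.SpecialLinearGroup.map ψ) h1
  have hφ : Function.Injective (Matrix.SpecialLinearGroup.map (n := Fin 2) φ) := by
    intro a b hab
    ext1 i j
    apply hτ
    have := congrArg (fun m : SL(2, ℝ) => m i j) hab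
    exact this
  rw [e1]
  exact hφ.comp hρ

def VP {α : Type} (a : α) (x y : Option (α × Bool)) : Prop :=
  y = some (a, true) ∨ x = some (a, false)

lemma col_any {α : Type} [DecidableEq α] (w : FreeGroup α) :
    ∃ c : FreeGroup α → Option (α × Bool),
      (∀ a u, VP a (c u) (c (of a * u))) ∧ ∀ u, c (u * w) = c u := by
  set W := reduceCyclically w.toWord with hWdef
  have hc : IsCyclicallyReduced W := reduceCyclically.isCyclicallyReduced isReduced_toWord
  have hW : IsReduced (W ++ W) := by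
    have := (hc.flatten_replicate 2).isReduced
    simpa [List.replicate] using this
  set q : FreeGroup α := mk (reduceCyclically.conjugator w.toWord) with hq
  have hwq : w = q * mk W * q⁻¹ := by
    conv_lhs => rw [← mk_toWord (x := w),
      ← reduceCyclically.conj_conjugator_reduceCyclically w.toWord]
    rw [hq, inv_mk, mul_mk, mul_mk]
  by_cases h0 : W = []
  · have : w = 1 := by rw [hwq, h0, ← one_eq_mk]; simp
    exact ⟨fun u => u.toWord.foldr (fun s _ => some s) none,
      fold_valid VP (fun s _ => some s) none (fun _ _ => Or.inl rfl) (fun _ _ => Or.inr rfl),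
      fun u => by rw [this, mul_one]⟩
  · obtain ⟨c, h1, h2⟩ := col_word VP (fun s _ => some s) none (fun _ _ => Or.inl rfl)
      (fun _ _ => Or.inr rfl) hW h0 (by
        obtain ⟨s, L, hs⟩ := List.exists_cons_of_ne_nil h0
        exact ⟨some s, fun x => by rw [hs]; rfl⟩)
    refine ⟨fun u => c (u * q), fun a u => ?_, fun u => ?_⟩
    · simp only [mul_assoc]; exact h1 a _
    · show c (u * w * q) = c (u * q)
      have : u * w * q = u * q * mk W := by rw [hwq]; group
      rw [this, h2]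

abbrev D : Set ℍ := Metric.closedBall UpperHalfPlane.I 1

lemma five : ∃ (ι : Type) (_ : Finite ι) (a : ι → SL(2, ℝ)) (f : Fin 5 → D → D),
    (∀ l x, ∃ i, (f l x : ℍ) = a i • (x : ℍ)) ∧
    ∀ l l' x x', f l x = f l' x' → l = l' ∧ x = x' := by
  classical
  obtain ⟨s, -, hs, hcov⟩ := finite_cover_balls_of_compact
    (isCompact_closedBall UpperHalfPlane.I 1) (e := 1 / 2) (by norm_num)
  have := hs.to_subtype
  have hne : Nonempty s := by
    have := hcov (Metric.mem_closedBall_self zero_le_one)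
    simp only [Set.mem_iUnion] at this
    obtain ⟨x, hx, -⟩ := this
    exact ⟨⟨x, hx⟩⟩
  obtain ⟨v, hv, hfree⟩ := free_near (ι := s × Fin 6)
    (fun i => {v | Pm (v 0) (v 1) (v 2) • (i.1 : ℍ) ∈ Metric.ball UpperHalfPlane.I (1 / 2)})
    (fun i => Metric.isOpen_ball.preimage (Pm_cont.smul continuous_const))
    (fun i => by
      obtain ⟨v, hv⟩ := Pm_hit i.1
      exact ⟨v, by simp [hv]⟩)
  let a : s × Fin 6 → SL(2, ℝ) := fun i => Pm (v i 0) (v i 1) (v i 2)
  let ρ := FreeGroup.lift a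
  let _ : MulAction (FreeGroup (s × Fin 6)) ℍ := MulAction.compHom _ ρ
  have hsm : ∀ (u : FreeGroup (s × Fin 6)) (x : ℍ), u • x = ρ u • x := fun _ _ => rfl
  obtain ⟨col, hcol⟩ := col_action (α := s × Fin 6) VP (X := ℍ)
    (fun x a b ha hb => hfree (by
      rw [_root_.map_mul, _root_.map_mul]; exact stab_comm _ _ x ha hb))
    (fun x w _ => col_any w)
  have hcol' : ∀ i x, VP i (col x) (col (a i • x)) := by
    intro i x
    have := hcol i x
    rw [hsm] at this
    simpa only [ρ, FreeGroup.lift_apply_of] using this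
  have key : ∀ x : D, ∃ g : Fin 5 → s × Fin 6, Function.Injective g ∧
      ∀ l, a (g l) • (x : ℍ) ∈ D ∧ col (a (g l) • (x : ℍ)) = some (g l, true) := by
    intro x
    have := hcov x.2
    simp only [Set.mem_iUnion] at this
    obtain ⟨c, hc, hxc⟩ := this
    obtain ⟨l0, hl0⟩ : ∃ l0 : Fin 6, ∀ l, l ≠ l0 → col x ≠ some ((⟨c, hc⟩, l), false) := by
      by_cases h : ∃ l0 : Fin 6, col x = some ((⟨c, hc⟩, l0), false)
      · obtain ⟨l0, h⟩ := h
        exact ⟨l0, fun l hl h' => hl (by rw [h] at h'; simpa using h'.symm)⟩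
      · exact ⟨0, fun l _ h' => h ⟨l, h'⟩⟩
    refine ⟨fun l => (⟨c, hc⟩, l0.succAbove l), fun l l' h => ?_, fun l => ⟨?_, ?_⟩⟩
    · exact Fin.succAbove_right_injective (congrArg Prod.snd h)
    · have h1 : dist (a (⟨c, hc⟩, l0.succAbove l) • c) UpperHalfPlane.I < 1 / 2 :=
        hv (⟨c, hc⟩, l0.succAbove l)
      have h2 : dist (x : ℍ) c < 1 / 2 := hxc
      have h3 := dist_smul (a (⟨c, hc⟩, l0.succAbove l)) (x : ℍ) c
      have h4 := dist_triangle (a (⟨c, hc⟩, l0.succAbove l) • (x : ℍ))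
        (a (⟨c, hc⟩, l0.succAbove l) • c) UpperHalfPlane.I
      show dist _ _ ≤ 1
      linarith
    · exact (hcol' _ x).resolve_right (hl0 _ (Fin.succAbove_ne _ _))
  choose g hg1 hg2 using key
  refine ⟨s × Fin 6, inferInstance, a, fun l x => ⟨_, (hg2 x l).1⟩, fun l x => ⟨_, rfl⟩, ?_⟩
  intro l l' x x' h
  have h1 : a (g x l) • (x : ℍ) = a (g x' l') • (x' : ℍ) := congrArg Subtype.val h
  have h2 := (hg2 x l).2
  rw [h1, (hg2 x' l').2] at h2
  have h3 : g x' l' = g x l := by simpa using h2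
  rw [h3] at h1
  have h4 : x = x' := Subtype.ext (smul_left_cancel _ h1)
  subst h4
  exact ⟨(hg1 x h3).symm, rfl⟩

def enc : Fin 2 × Bool → Fin 5
  | (0, true) => 0
  | (0, false) => 1
  | (1, true) => 2
  | (1, false) => 3

lemma enc_inj : ∀ s t, enc s = enc t → s = t := by decide
lemma enc_ne : ∀ s, enc s ≠ 4 := by decide

theorem result : ∃ X : Set ℍ, Bornology.IsBounded X ∧ (interior X).Nonempty ∧
    ∃ φ ψ : Equiv.Perm X, PiecewiseIsometry X φ ∧ PiecewiseIsometry X ψ ∧
      Function.Injective (FreeGroup.lift ![φ, ψ]) ∧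
      ∀ g ∈ Subgroup.closure {φ, ψ}, (∃ x, g x = x) → g = 1 := by
  classical
  refine ⟨D, Metric.isBounded_closedBall, ⟨UpperHalfPlane.I,
    Metric.ball_subset_interior_closedBall (Metric.mem_ball_self one_pos)⟩, ?_⟩
  obtain ⟨ι, _, a, f, hf1, hf2⟩ := five
  let Φ0 : D → List (Fin 2 × Bool) → D := fun x L => L.foldr (fun s y => f (enc s) y) (f 4 x)
  have hΦ0 : ∀ L L' x x', Φ0 x L = Φ0 x' L' → L = L' ∧ x = x' := by
    intro L
    induction L with
    | nil =>
      intro L' x x' h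
      cases L' with
      | nil => exact ⟨rfl, (hf2 _ _ _ _ h).2⟩
      | cons s L' => exact absurd (hf2 _ _ _ _ h).1.symm (enc_ne s)
    | cons s L ih =>
      intro L' x x' h
      cases L' with
      | nil => exact absurd (hf2 _ _ _ _ h).1 (enc_ne s)
      | cons s' L' =>
        obtain ⟨h1, h2⟩ := hf2 _ _ _ _ h
        obtain ⟨h3, h4⟩ := ih L' x x' h2
        exact ⟨by rw [enc_inj _ _ h1, h3], h4⟩
  let Φ : D × FreeGroup (Fin 2) → D := fun b => Φ0 b.1 b.2.toWord
  have hΦ : Function.Injective Φ := by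
    intro b b' h
    obtain ⟨h1, h2⟩ := hΦ0 _ _ _ _ h
    exact Prod.ext h2 (toWord_injective h1)
  let T : Option ι → SL(2, ℝ) := fun o => o.elim 1 a
  obtain ⟨h, hb, hR⟩ := Function.Embedding.schroeder_bernstein_of_rel
    (f := fun x : D => ((x, 1) : D × FreeGroup (Fin 2))) (g := Φ)
    (fun x y h => congrArg Prod.fst h) hΦ
    (fun x b => ∃ o, (Φ b : ℍ) = T o • (x : ℍ))
    (fun x => by
      obtain ⟨i, hi⟩ := hf1 4 x
      exact ⟨some i, hi⟩)
    (fun b => ⟨none, by simp [T]⟩)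
  let e := Equiv.ofBijective h hb
  let act : FreeGroup (Fin 2) →* Equiv.Perm D :=
    { toFun := fun w => (e.trans ((Equiv.refl D).prodCongr (Equiv.mulLeft w))).trans e.symm
      map_one' := by ext x; simp
      map_mul' := fun u v => by ext x; simp [Prod.map, mul_assoc] }
  have hact : ∀ w x, e (act w x) = ((e x).1, w * (e x).2) := by
    intro w x; simp [act, Prod.map]
  have hfree : ∀ w x, act w x = x → w = 1 := by
    intro w x hx
    have := hact w x
    rw [hx] at this
    simpa using congrArg Prod.snd this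
  have hl : FreeGroup.lift ![act (of 0), act (of 1)] = act := by
    ext1 i; fin_cases i <;> simp
  have hpw : ∀ k : Fin 2, PiecewiseIsometry D (act (of k)) := by
    intro k
    have key : ∀ x : D, ∃ t : Option ι × Option ι × Option ι × Option ι,
        (act (of k) x : ℍ) = ((T t.1)⁻¹ * (T t.2.1)⁻¹ * T t.2.2.1 * T t.2.2.2) • (x : ℍ) := by
      intro x
      obtain ⟨o1, h1⟩ := hR x
      obtain ⟨o2, h2⟩ := hR (act (of k) x)
      have h3 : h (act (of k) x) = ((h x).1, of k * (h x).2) := hact _ x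
      rw [h3] at h2
      rw [← inv_smul_eq_iff] at h2
      rcases toWord_cases (k, true) (h x).2 with h4 | h4
      · obtain ⟨i, hi⟩ := hf1 (enc (k, true)) (Φ (h x))
        have h5 : Φ ((h x).1, of k * (h x).2) = f (enc (k, true)) (Φ (h x)) := by
          show Φ0 _ (mk [(k, true)] * (h x).2).toWord = _
          rw [h4]; rfl
        refine ⟨(o2, none, some i, o1), ?_⟩
        rw [← h2, h5, hi, h1]
        simp [T, mul_smul]
      · obtain ⟨i, hi⟩ := hf1 (enc (k, false)) (Φ ((h x).1, of k * (h x).2))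
        have h5 : Φ (h x) = f (enc (k, false)) (Φ ((h x).1, of k * (h x).2)) := by
          show Φ0 _ (h x).2.toWord = _
          rw [h4]; rfl
        refine ⟨(o2, some i, none, o1), ?_⟩
        rw [← h5, h1, ← inv_smul_eq_iff] at hi
        rw [← h2, ← hi]
        simp [T, mul_smul]
    choose t ht using key
    obtain ⟨n, ⟨E⟩⟩ := Finite.exists_equiv_fin (Option ι × Option ι × Option ι × Option ι)
    refine ⟨n, fun x => E (t x), fun j => IsometryEquiv.constSMul
      ((T (E.symm j).1)⁻¹ * (T (E.symm j).2.1)⁻¹ * T (E.symm j).2.2.1 * T (E.symm j).2.2.2),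
      fun x => ?_⟩
    rw [ht x]; simp
  refine ⟨act (of 0), act (of 1), hpw 0, hpw 1, ?_, ?_⟩
  · rw [hl, injective_iff_map_eq_one]
    intro w hw
    exact hfree w ⟨UpperHalfPlane.I, Metric.mem_closedBall_self zero_le_one⟩ (by rw [hw]; rfl)
  · rintro g hg ⟨x, hx⟩
    have : Subgroup.closure {act (of 0), act (of 1)} ≤ act.range := by
      rw [Subgroup.closure_le]
      rintro _ (rfl | rfl)
      · exact ⟨_, rfl⟩
      · exact ⟨_, rfl⟩
    obtain ⟨w, rfl⟩ := this hg
    rw [hfree w x hx, _root_.map_one]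

end Pool.Agent.Results.MP_e721cf_gt.Yes
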